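import Pool.Agent.R284.RC.Stm

/-!
RC-LOC2: `L1` and the optimality inequalities give `L2`.
-/

set_option autoImplicit false
open MeasureTheory Set Filter Topology
open scoped ENNReal NNReal

namespace Pool.Agent.R284.RC

theorem loc2_ball {n : ℕ} {q : ℝ} (hq : 0 < q) {μ : Measure (E n)} {B : ℝ≥0}
    (hB : ∀ x, Pot q μ x ≤ B) (x0 : E n) {r : ℝ} (hr : 0 < r) :
    (μ (Metric.ball x0 r)).toReal ≤ B * r ^ q := by
  have h0 : (ENNReal.ofReal r) ^ q ≠ 0 := by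
    rw [ENNReal.ofReal_rpow_of_pos hr]
    exact (ENNReal.ofReal_pos.2 (Real.rpow_pos_of_pos hr q)).ne'
  have ht : (ENNReal.ofReal r) ^ q ≠ ⊤ := by
    rw [ENNReal.ofReal_rpow_of_pos hr]
    exact ENNReal.ofReal_ne_top
  have h1 : (ENNReal.ofReal r) ^ (-q) * μ (Metric.ball x0 r) ≤ B := by
    calc (ENNReal.ofReal r) ^ (-q) * μ (Metric.ball x0 r)
        = ∫⁻ y in Metric.ball x0 r, (ENNReal.ofReal r) ^ (-q) ∂μ := by
          rw [setLIntegral_const]
      _ ≤ ∫⁻ y in Metric.ball x0 r, (edist x0 y) ^ (-q) ∂μ := by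
          apply setLIntegral_mono' measurableSet_ball
          intro y hy
          rw [ENNReal.rpow_neg, ENNReal.rpow_neg]
          apply ENNReal.inv_le_inv.2
          apply ENNReal.rpow_le_rpow _ hq.le
          rw [edist_dist]
          apply ENNReal.ofReal_le_ofReal
          rw [dist_comm]
          exact (Metric.mem_ball.1 hy).le
      _ ≤ Pot q μ x0 := setLIntegral_le_lintegral _ _
      _ ≤ B := hB x0
  have h2 : μ (Metric.ball x0 r) ≤ B * (ENNReal.ofReal r) ^ q := by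
    calc μ (Metric.ball x0 r)
        = (ENNReal.ofReal r) ^ (-q) * μ (Metric.ball x0 r) * (ENNReal.ofReal r) ^ q := by
          rw [mul_right_comm, ENNReal.rpow_neg, ENNReal.inv_mul_cancel h0 ht, one_mul]
      _ ≤ B * (ENNReal.ofReal r) ^ q := by gcongr
  have h3 : (μ (Metric.ball x0 r)).toReal ≤ (B * (ENNReal.ofReal r) ^ q).toReal :=
    ENNReal.toReal_mono (ENNReal.mul_ne_top ENNReal.coe_ne_top ht) h2
  refine h3.trans (le_of_eq ?_)
  rw [ENNReal.toReal_mul, ENNReal.ofReal_rpow_of_pos hr,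
    ENNReal.toReal_ofReal (Real.rpow_nonneg hr.le q), ENNReal.coe_toReal]

theorem loc2_proof (hg : S_gain) : S_loc2 := by
  intro n p q μ ν V C1 C2 γ hctx x0 η0 κ hη hκ hL1
  obtain ⟨hp, hpq, _, hμ, hBP, _, hV, hlow, hopt, _⟩ := hctx
  obtain ⟨hC1, _, _, hopt1, _⟩ := hopt
  obtain ⟨B, hB⟩ := hBP
  have hq : 0 < q := lt_of_le_of_lt hp hpq
  have hB0 : (0 : ℝ) ≤ B := B.coe_nonneg
  have hC : 0 < C1 * ((B : ℝ) + 1) := by positivity
  set C : ℝ := C1 * ((B : ℝ) + 1) with hCdef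
  obtain ⟨r1, hr1, h1⟩ := hL1 C hC
  have ht : 0 < min (1 / (2 * ((B : ℝ) + 1))) (η0 / (2 * C)) := by
    apply lt_min <;> positivity
  set t : ℝ := min (1 / (2 * ((B : ℝ) + 1))) (η0 / (2 * C)) with htdef
  have hr0 : 0 < t ^ (1 / q) := Real.rpow_pos_of_pos ht _
  have hκ0 : 0 < κ := hκ.1
  refine ⟨η0 ^ 2 * κ ^ q / C, by positivity, κ * min r1 (t ^ (1 / q)),
    mul_pos hκ0 (lt_min hr1 hr0), ?_⟩
  intro ρ hρ
  obtain ⟨hρ0, hρ1⟩ := hρ
  have hr : 0 < ρ / κ := div_pos hρ0 hκ0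
  have hrlt : ρ / κ < min r1 (t ^ (1 / q)) := by
    rw [div_lt_iff₀ hκ0, mul_comm]
    exact hρ1
  set r : ℝ := ρ / κ with hrdef
  have hρr : κ * r = ρ := by
    rw [hrdef]
    field_simp
  have hrq : r ^ q < t := by
    have h2 : r ^ q < (t ^ (1 / q)) ^ q :=
      Real.rpow_lt_rpow hr.le (lt_of_lt_of_le hrlt (min_le_right _ _)) hq
    rwa [← Real.rpow_mul ht.le, one_div, inv_mul_cancel₀ hq.ne', Real.rpow_one] at h2
  have hrq0 : 0 < r ^ q := Real.rpow_pos_of_pos hr q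
  have hb := loc2_ball hq hB x0 hr
  have hhalf : (μ (Metric.ball x0 r)).toReal ≤ 1 / 2 := by
    have h3 : r ^ q ≤ 1 / (2 * ((B : ℝ) + 1)) := hrq.le.trans (min_le_left _ _)
    have h4 : ((B : ℝ) + 1) * r ^ q ≤ 1 / 2 := by
      rw [le_div_iff₀ (by positivity)] at h3
      linarith
    nlinarith
  have hδ : C1 * (μ (Metric.ball x0 r)).toReal < C * r ^ q := by
    have h5 : C1 * (μ (Metric.ball x0 r)).toReal ≤ C1 * (B * r ^ q) :=
      mul_le_mul_of_nonneg_left hb (by linarith)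
    have h6 : 0 < C1 * r ^ q := by positivity
    have h7 : C * r ^ q = C1 * (B * r ^ q) + C1 * r ^ q := by
      rw [hCdef]
      ring
    linarith
  obtain ⟨σ, hσ, hσ0, hσE⟩ := hopt1 _ measurableSet_ball hhalf _ hδ
  have hU := h1 r ⟨hr, lt_of_lt_of_le hrlt (min_le_left _ _)⟩ σ hσ hσ0 hσE
  have h4δ : 4 * (C * r ^ q) ≤ 2 * η0 := by
    have h8 : r ^ q ≤ η0 / (2 * C) := hrq.le.trans (min_le_right _ _)
    rw [le_div_iff₀ (by positivity)] at h8
    linarith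
  have hLB := hg n p q hp hpq μ inferInstance ⟨B, hB⟩ V hlow σ hσ
    (Metric.closedBall x0 (κ * r)) Metric.isClosed_closedBall.measurableSet (C * r ^ q) (2 * η0)
    (by positivity) h4δ hσE hU
  rw [hρr] at hLB
  intro τ hτ hτ0
  refine le_trans ?_ (hLB τ hτ hτ0)
  have h9 : ρ ^ (-q) = κ ^ (-q) * r ^ (-q) := by
    rw [← hρr, Real.mul_rpow hκ0.le hr.le]
  have hκq : κ ^ q ≠ 0 := (Real.rpow_pos_of_pos hκ0 q).ne'
  have h10 : η0 ^ 2 * κ ^ q / C * ρ ^ (-q) = (2 * η0) ^ 2 / (4 * (C * r ^ q)) := by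
    rw [h9, Real.rpow_neg hκ0.le, Real.rpow_neg hr.le]
    field_simp
    ring
  rw [h10]
  linarith

end Pool.Agent.R284.RC
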